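import Pool.Agent.W46.KK.Final

/-!
# From a discrete bound for progressions of a fixed length to Minkowski dimensions

`APk k c`: a finite set of integers which contains `k`-term progressions with `N` distinct common
differences has at least `N ^ (1 / c)` elements. The number of terms is not changed.
-/

set_option autoImplicit false

open Finset Filter Topology

namespace Pool.Agent.K3h53.AP

open Pool.Agent.W46.KK

/-- If `S` contains the progression `z.1 + i z.2` (`i < k`) for every `z ∈ P`, and the common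
differences are distinct, then `|P| ≤ |S| ^ c`. -/
def APk (k : ℕ) (c : ℝ) : Prop :=
  ∀ (P : Finset (ℤ × ℤ)) (S : Finset ℤ), Set.InjOn Prod.snd (P : Set (ℤ × ℤ)) →
    (∀ z ∈ P, ∀ i : ℕ, i < k → z.1 + i * z.2 ∈ S) → (P.card : ℝ) ≤ (S.card : ℝ) ^ c

/-- the same for integer vectors -/
theorem vec {k : ℕ} {c : ℝ} (h : APk k c) (hc : 0 ≤ c) {d : ℕ} {κ : Type} (V : Finset κ)
    (x y : κ → Fin d → ℤ) (hinj : ∀ v ∈ V, ∀ w ∈ V, y v = y w → v = w) (S : Finset (Fin d → ℤ))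
    (hS : ∀ v ∈ V, ∀ j : ℕ, j < k → (fun i => x v i + (j : ℤ) * y v i) ∈ S) :
    (V.card : ℝ) ≤ (S.card : ℝ) ^ c := by
  classical
  obtain ⟨M, hM⟩ := exists_hom (V.image y)
  set φ : (Fin d → ℤ) → ℤ := fun z => ∑ i, z i * M ^ (i : ℕ) with hφ
  set P : Finset (ℤ × ℤ) := V.image fun v => (φ (x v), φ (y v)) with hP
  have hy : ∀ v ∈ V, ∀ w ∈ V, φ (y v) = φ (y w) → v = w := fun v hv w hw hvw =>
    hinj v hv w hw (hM _ (Finset.mem_image_of_mem _ hv) _ (Finset.mem_image_of_mem _ hw) hvw)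
  have hcard : P.card = V.card := by
    apply Finset.card_image_of_injOn
    intro v hv w hw hvw
    exact hy v hv w hw (congrArg Prod.snd hvw)
  have h1 := h P (S.image φ)
    (by
      intro p hp q hq hpq
      obtain ⟨v, hv, rfl⟩ := Finset.mem_image.1 (Finset.mem_coe.1 hp)
      obtain ⟨w, hw, rfl⟩ := Finset.mem_image.1 (Finset.mem_coe.1 hq)
      rw [hy v hv w hw hpq])
    (by
      intro p hp j hj
      obtain ⟨v, hv, rfl⟩ := Finset.mem_image.1 hp
      refine Finset.mem_image.2 ⟨_, hS v hv j hj, ?_⟩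
      simp only [hφ]
      rw [Finset.mul_sum, ← Finset.sum_add_distrib]
      exact Finset.sum_congr rfl fun i _ => by ring)
  rw [hcard] at h1
  refine h1.trans (Real.rpow_le_rpow (Nat.cast_nonneg _) ?_ hc)
  exact_mod_cast Finset.card_image_le

/-- Coverings of a set which contains a `k`-term progression with every common difference in `R`,
at every scale. -/
theorem gen {k : ℕ} {c : ℝ} (h : APk k c) (hc : 0 ≤ c) {n : ℕ}
    (R B : Set (EuclideanSpace ℝ (Fin n)))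
    (hB : ∀ r ∈ R, ∃ a : EuclideanSpace ℝ (Fin n), ∀ j : ℕ, j < k → a + (j : ℝ) • r ∈ B)
    {δ : ℝ} (hδ : 0 < δ) (V : Finset (EuclideanSpace ℝ (Fin n))) (hVR : ∀ v ∈ V, v ∈ R)
    (hsep : ∀ v ∈ V, ∀ w ∈ V, v ≠ w → ∃ i, δ ≤ |v i - w i|)
    {ι : Type} [Fintype ι] (U : ι → Set (EuclideanSpace ℝ (Fin n)))
    (hU : ∀ i, ∀ x ∈ U i, ∀ y ∈ U i, dist x y ≤ δ) (hcov : B ⊆ ⋃ i, U i) :
    (V.card : ℝ) ≤ ((3 * k : ℝ) ^ n * (Fintype.card ι : ℝ)) ^ c := by
  classical
  have hex : ∀ v : EuclideanSpace ℝ (Fin n), ∃ a : EuclideanSpace ℝ (Fin n), v ∈ R →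
      ∀ j : ℕ, j < k → a + (j : ℝ) • v ∈ B := by
    intro v
    by_cases hv : v ∈ R
    · obtain ⟨a, ha⟩ := hB v hv
      exact ⟨a, fun _ => ha⟩
    · exact ⟨0, fun h' => absurd h' hv⟩
  choose p hp using hex
  -- the cells of the points of the progressions
  set W : Finset (EuclideanSpace ℝ (Fin n) × Fin k) := V ×ˢ Finset.univ with hW
  set f : EuclideanSpace ℝ (Fin n) × Fin k → Fin n → ℝ := fun q i => p q.1 i + (q.2 : ℕ) * q.1 i
    with hf
  set Z : Finset (Fin n → ℤ) := W.image fun q => fl δ (f q) with hZ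
  have hZc : Z.card ≤ 3 ^ n * Fintype.card ι := by
    refine card_cells (d := n) hδ (fun i => (WithLp.toLp 2) ⁻¹' (U i)) ?_ W f ?_
    · intro i x hx y hy l
      refine le_trans ?_ (hU i _ hx _ hy)
      rw [EuclideanSpace.dist_eq]
      have h3 : dist (x l) (y l) ^ 2 ≤ ∑ i, dist (x i) (y i) ^ 2 :=
        Finset.single_le_sum (f := fun i => dist (x i) (y i) ^ 2) (fun _ _ => sq_nonneg _)
          (Finset.mem_univ l)
      rw [← Real.dist_eq]
      exact Real.le_sqrt_of_sq_le h3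
    · intro q hq
      have hq1 : q.1 ∈ V := (Finset.mem_product.1 hq).1
      have h1 := hcov (hp q.1 (hVR _ hq1) q.2 q.2.2)
      rw [Set.mem_iUnion] at h1
      obtain ⟨i, hi⟩ := h1
      refine ⟨i, ?_⟩
      rw [Set.mem_preimage]
      convert hi using 1
      ext l
      simp [hf]
  -- the exact progressions
  set S : Finset (Fin n → ℤ) :=
    (Z ×ˢ (Finset.univ : Finset (Fin n → Fin k))).image fun q => fun i => q.1 i - ((q.2 i : ℕ) : ℤ)
    with hS
  have hSc : S.card ≤ 3 ^ n * Fintype.card ι * k ^ n := by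
    refine Finset.card_image_le.trans ?_
    rw [Finset.card_product, Finset.card_univ, Fintype.card_pi, Finset.prod_const,
      Finset.card_univ, Fintype.card_fin, Fintype.card_fin]
    exact Nat.mul_le_mul_right _ hZc
  have key := vec h hc V (fun v i => ⌊p v i / δ⌋) (fun v i => ⌊v i / δ⌋)
    (by
      intro v hv w hw hvw
      by_contra hne
      obtain ⟨i, hi⟩ := hsep v hv w hw hne
      have h1 : ⌊v i / δ⌋ = ⌊w i / δ⌋ := congrFun hvw i
      have h2 := Int.abs_sub_lt_one_of_floor_eq_floor h1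
      rw [← sub_div, abs_div, abs_of_pos hδ, div_lt_one hδ] at h2
      linarith)
    S
    (by
      intro v hv j hj
      -- the difference of the two roundings
      have hd : ∀ i, ∃ e : Fin k, ⌊f (v, ⟨j, hj⟩) i / δ⌋ - ((e : ℕ) : ℤ) =
          ⌊p v i / δ⌋ + (j : ℤ) * ⌊v i / δ⌋ := by
        intro i
        have e1 : f (v, ⟨j, hj⟩) i / δ = p v i / δ + (j : ℝ) * (v i / δ) := by
          simp only [hf]
          ring
        rw [e1]
        set A : ℝ := p v i / δ with hA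
        set C : ℝ := v i / δ with hC
        have a1 := Int.floor_le A
        have a2 := Int.lt_floor_add_one A
        have c1 := Int.floor_le C
        have c2 := (Int.lt_floor_add_one C).le
        have hj0 : (0 : ℝ) ≤ (j : ℝ) := Nat.cast_nonneg _
        have b1 : ⌊A⌋ + (j : ℤ) * ⌊C⌋ ≤ ⌊A + (j : ℝ) * C⌋ := by
          rw [Int.le_floor]
          push_cast
          nlinarith [mul_le_mul_of_nonneg_left c1 hj0]
        have b2 : ⌊A + (j : ℝ) * C⌋ < ⌊A⌋ + (j : ℤ) * ⌊C⌋ + (j + 1 : ℤ) := by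
          rw [Int.floor_lt]
          push_cast
          nlinarith [mul_le_mul_of_nonneg_left c2 hj0]
        refine ⟨⟨(⌊A + (j : ℝ) * C⌋ - (⌊A⌋ + (j : ℤ) * ⌊C⌋)).toNat, by omega⟩, ?_⟩
        have : (((⌊A + (j : ℝ) * C⌋ - (⌊A⌋ + (j : ℤ) * ⌊C⌋)).toNat : ℕ) : ℤ) =
            ⌊A + (j : ℝ) * C⌋ - (⌊A⌋ + (j : ℤ) * ⌊C⌋) := Int.toNat_of_nonneg (by omega)
        simp only [this]
        ring
      choose e he using hd
      refine Finset.mem_image.2 ⟨(fl δ (f (v, ⟨j, hj⟩)), e), ?_, ?_⟩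
      · refine Finset.mem_product.2 ⟨?_, Finset.mem_univ _⟩
        exact Finset.mem_image_of_mem _ (Finset.mem_product.2 ⟨hv, Finset.mem_univ _⟩)
      · funext i
        exact he i)
  refine key.trans (Real.rpow_le_rpow (Nat.cast_nonneg _) ?_ hc)
  calc (S.card : ℝ) ≤ ((3 ^ n * Fintype.card ι * k ^ n : ℕ) : ℝ) := by exact_mod_cast hSc
    _ = (3 * k : ℝ) ^ n * (Fintype.card ι : ℝ) := by
        push_cast
        rw [mul_pow]
        ring

/-- Progressions with every common difference in the unit cube: coverings at every scale. -/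
theorem cover {k : ℕ} {c : ℝ} (h : APk k c) (hc : 0 < c) (n : ℕ) :
    ∃ κ : ℝ, 0 < κ ∧ ∀ B : Set (EuclideanSpace ℝ (Fin n)), HasProgressions k B →
      ∀ δ : ℝ, 0 < δ → ∀ (ι : Type) [Fintype ι] (U : ι → Set (EuclideanSpace ℝ (Fin n))),
        (∀ i, ∀ x ∈ U i, ∀ y ∈ U i, dist x y ≤ δ) → B ⊆ ⋃ i, U i →
        κ * δ ^ (-((n : ℝ) / c)) ≤ (Fintype.card ι : ℝ) := by
  classical
  have hD : ∃ D : ℝ, 0 < D ∧ (3 * k : ℝ) ^ n ≤ D := ⟨(3 * k : ℝ) ^ n + 1, by positivity, by linarith⟩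
  obtain ⟨D, hDpos, hDle⟩ := hD
  refine ⟨1 / D, by positivity, fun B hB δ hδ ι _ U hU hcov => ?_⟩
  set V : Finset (EuclideanSpace ℝ (Fin n)) := (grid n δ).image (fun v => WithLp.toLp 2 v) with hV
  have hVc : V.card = (grid n δ).card := by
    rw [hV]
    exact Finset.card_image_of_injective _ (WithLp.toLp_injective 2)
  have h1 := gen h hc.le {r | ∀ i, r i ∈ Set.Icc (0 : ℝ) 1} B (fun r hr => hB r hr) hδ V
    (by
      intro v hv
      obtain ⟨w, hw, rfl⟩ := Finset.mem_image.1 hv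
      exact fun i => grid_mem hδ hw i)
    (by
      intro v hv w hw hne
      obtain ⟨v', hv', rfl⟩ := Finset.mem_image.1 hv
      obtain ⟨w', hw', rfl⟩ := Finset.mem_image.1 hw
      exact grid_sep hδ hv' hw' (fun h' => hne (congrArg (WithLp.toLp 2) h')))
    U hU hcov
  set N : ℝ := (Fintype.card ι : ℝ) with hNdef
  have hNnn : 0 ≤ N := Nat.cast_nonneg _
  have h5 : (1 / δ) ^ n ≤ (D * N) ^ c := by
    refine le_trans ?_ (h1.trans (Real.rpow_le_rpow (by positivity)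
      (mul_le_mul_of_nonneg_right hDle hNnn) hc.le))
    rw [hVc]
    exact grid_card hδ
  have h6 : ((1 / δ) ^ n) ^ (1 / c) ≤ D * N := by
    have h7 := Real.rpow_le_rpow (by positivity) h5 (by positivity : 0 ≤ 1 / c)
    rwa [← Real.rpow_mul (by positivity), mul_one_div_cancel hc.ne', Real.rpow_one] at h7
  have h8 : ((1 / δ) ^ n) ^ (1 / c) = δ ^ (-((n : ℝ) / c)) := by
    rw [← Real.rpow_natCast, ← Real.rpow_mul (by positivity), mul_one_div,
      one_div, Real.inv_rpow hδ.le, Real.rpow_neg hδ.le]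
  rw [h8] at h6
  rw [div_mul_eq_mul_div, one_mul, div_le_iff₀ hDpos, mul_comm N D]
  exact h6

theorem ev {c κ : ℝ} (hκ : 0 < κ) (n : ℕ) (N : ℝ → ℕ)
    (hcount : ∀ δ : ℝ, 0 < δ → κ * δ ^ (-((n : ℝ) / c)) ≤ (N δ : ℝ)) (y : ℝ)
    (hy : y < (n : ℝ) / c) :
    ∀ᶠ δ : ℝ in 𝓝[>] (0 : ℝ), ((y : ℝ) : EReal) ≤
      ((Real.log (N δ) / Real.log (1 / δ) : ℝ) : EReal) := by
  set ε := (n : ℝ) / c - y with hε
  have hεpos : 0 < ε := by rw [hε]; linarith
  have hlog : Tendsto Real.log (𝓝[>] 0) atBot := Real.tendsto_log_nhdsGT_zero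
  have h1 : ∀ᶠ δ : ℝ in 𝓝[>] (0 : ℝ), Real.log δ < -(|Real.log κ| / ε + 1) :=
    hlog.eventually (eventually_lt_atBot _)
  have hsmall : ∀ᶠ δ : ℝ in 𝓝[>] (0 : ℝ), 0 < δ ∧ δ < 1 := Ioo_mem_nhdsGT one_pos
  filter_upwards [h1, hsmall] with δ h1 h2
  have habs : 0 ≤ |Real.log κ| / ε := by positivity
  have hneg : Real.log δ < 0 := by linarith
  rw [EReal.coe_le_coe_iff, one_div, Real.log_inv, le_div_iff₀ (by linarith)]
  have hpos : 0 < κ * δ ^ (-((n : ℝ) / c)) := by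
    have := h2.1
    positivity
  have h5 := Real.log_le_log hpos (hcount δ h2.1)
  rw [Real.log_mul hκ.ne' (by have := h2.1; positivity), Real.log_rpow h2.1] at h5
  have h6 : ε * Real.log δ ≤ Real.log κ := by
    have h7 : |Real.log κ| / ε < -Real.log δ := by linarith
    rw [div_lt_iff₀ hεpos] at h7
    have := neg_abs_le (Real.log κ)
    nlinarith
  have h8 : y * -Real.log δ = -((n : ℝ) / c) * Real.log δ + ε * Real.log δ := by rw [hε]; ring
  rw [h8]
  linarith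

/-- Everything with the given number of terms: coverings of sets with common differences in an
arbitrary set `R`, coverings at every scale, the lower Minkowski dimension, and `f^M_n(k)`. -/
theorem port {k : ℕ} {c : ℝ} (hc : 0 < c) (h : APk k c) :
    (∀ (n : ℕ) (R B : Set (EuclideanSpace ℝ (Fin n))),
      (∀ r ∈ R, ∃ a : EuclideanSpace ℝ (Fin n), ∀ j : ℕ, j < k → a + (j : ℝ) • r ∈ B) →
      ∀ δ : ℝ, 0 < δ → ∀ V : Finset (EuclideanSpace ℝ (Fin n)), (∀ v ∈ V, v ∈ R) →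
        (∀ v ∈ V, ∀ w ∈ V, v ≠ w → ∃ i, δ ≤ |v i - w i|) →
        ∀ (ι : Type) [Fintype ι] (U : ι → Set (EuclideanSpace ℝ (Fin n))),
        (∀ i, ∀ x ∈ U i, ∀ y ∈ U i, dist x y ≤ δ) → B ⊆ ⋃ i, U i →
        (V.card : ℝ) ≤ ((3 * k : ℝ) ^ n * (Fintype.card ι : ℝ)) ^ c) ∧
      (∀ n : ℕ, ∃ κ : ℝ, 0 < κ ∧ ∀ B : Set (EuclideanSpace ℝ (Fin n)),
      HasProgressions k B →
      ∀ δ : ℝ, 0 < δ → ∀ (ι : Type) [Fintype ι] (U : ι → Set (EuclideanSpace ℝ (Fin n))),
        (∀ i, ∀ x ∈ U i, ∀ y ∈ U i, dist x y ≤ δ) → B ⊆ ⋃ i, U i →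
        κ * δ ^ (-((n : ℝ) / c)) ≤ (Fintype.card ι : ℝ)) ∧
      (∀ (n : ℕ) (B : Set (EuclideanSpace ℝ (Fin n))), Bornology.IsBounded B →
        HasProgressions k B → (((n : ℝ) / c : ℝ) : EReal) ≤
          liminf (fun δ : ℝ => ((Real.log (coverNum B δ) / Real.log (1 / δ) : ℝ) : EReal))
            (𝓝[>] 0)) ∧
      ∀ n k' : ℕ, k ≤ k' → (((n : ℝ) / c : ℝ) : EReal) ≤ fM n k' := by
  have hcount : ∀ (n : ℕ) (B : Set (EuclideanSpace ℝ (Fin n))), Bornology.IsBounded B →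
      HasProgressions k B → ∃ κ : ℝ, 0 < κ ∧ ∀ δ : ℝ, 0 < δ →
        κ * δ ^ (-((n : ℝ) / c)) ≤ (coverNum B δ : ℝ) := by
    intro n B hB hP
    obtain ⟨κ, hκ, hprog⟩ := cover h hc n
    refine ⟨κ, hκ, fun δ hδ => ?_⟩
    obtain ⟨U, hU1, hU2⟩ := Nat.sInf_mem (cover_nonempty hB hδ)
    have := hprog B hP δ hδ (Fin _) U hU1 hU2
    rwa [Fintype.card_fin] at this
  refine ⟨fun n R B hB δ hδ V hV hs ι _ U hU hcov => gen h hc.le R B hB hδ V hV hs U hU hcov,
    cover h hc, ?_, ?_⟩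
  · intro n B hB hP
    obtain ⟨κ, hκ, hcnt⟩ := hcount n B hB hP
    refine le_of_forall_lt fun x hx => ?_
    obtain ⟨y, hxy, hy⟩ := EReal.lt_iff_exists_real_btwn.mp hx
    refine lt_of_lt_of_le hxy ?_
    have hy' : y < (n : ℝ) / c := by exact_mod_cast hy
    exact le_liminf_of_le (by isBoundedDefault) (ev hκ n (coverNum B) hcnt y hy')
  · intro n k' hk'
    unfold fM
    refine le_iInf fun B => le_iInf fun hB => le_iInf fun hP => ?_
    have hP' : HasProgressions k B := by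
      intro r hr
      obtain ⟨a, ha⟩ := hP r hr
      exact ⟨a, fun j hj => ha j (lt_of_lt_of_le hj hk')⟩
    obtain ⟨κ, hκ, hcnt⟩ := hcount n B hB hP'
    refine le_of_forall_lt fun x hx => ?_
    obtain ⟨y, hxy, hy⟩ := EReal.lt_iff_exists_real_btwn.mp hx
    refine lt_of_lt_of_le hxy ?_
    have hy' : y < (n : ℝ) / c := by exact_mod_cast hy
    exact le_limsup_of_frequently_le
      (Eventually.frequently (ev hκ n (coverNum B) hcnt y hy')) (by isBoundedDefault)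

end Pool.Agent.K3h53.AP
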